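import Mathlib

/-!
# [H91 CA KRU] Descent of membership in a prime ideal

`krull_mem`: Krull's intersection theorem in `(R/P)_I`. `kru`: `R = k⟦X_0, .., X_m⟧`, `ι : R → K⟦X_0, .., X_(m-1)⟧` sends the last variable to a constant
of `K`; if `ι x` is in the closure of the ideal generated by `ι P` then `x ∈ P`, for a prime ideal `P` inside `I = (X_0, .., X_(m-1))`.
-/

set_option autoImplicit false

namespace Pool.Agent.H91.CA

open MvPowerSeries

/-- Krull's intersection theorem in the local ring of `R/P` at `I` -/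
theorem krull_mem {R : Type*} [CommRing R] [IsNoetherianRing R] {P I : Ideal R} [hP : P.IsPrime] [hI : I.IsPrime]
    (hPI : P ≤ I) {x : R} (h : ∀ s : ℕ, ∃ w : R, w ∉ I ∧ w * x ∈ P ⊔ I ^ s) : x ∈ P := by
  let A := Localization.AtPrime I
  let P' : Ideal A := P.map (algebraMap R A)
  have hm : I.map (algebraMap R A) = IsLocalRing.maximalIdeal A := Localization.AtPrime.map_eq_maximalIdeal
  have hN : IsNoetherianRing A := IsLocalization.isNoetherianRing I.primeCompl A inferInstance
  have h1 : ∀ s : ℕ, algebraMap R A x ∈ P' ⊔ (IsLocalRing.maximalIdeal A) ^ s := by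
    intro s
    obtain ⟨w, hw, h2⟩ := h s
    have h3 : algebraMap R A (w * x) ∈ P' ⊔ (IsLocalRing.maximalIdeal A) ^ s := by
      rw [← hm, ← Ideal.map_pow, ← Ideal.map_sup]
      exact Ideal.mem_map_of_mem _ h2
    rw [map_mul] at h3
    have h4 : IsUnit (algebraMap R A w) := IsLocalization.map_units A (⟨w, hw⟩ : I.primeCompl)
    exact (Ideal.unit_mul_mem_iff_mem _ h4).1 h3
  have h5 : (Submodule.Quotient.mk (algebraMap R A x) : A ⧸ P') ∈
      (⨅ i : ℕ, IsLocalRing.maximalIdeal A ^ i • (⊤ : Submodule A (A ⧸ P'))) := by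
    rw [Submodule.mem_iInf]
    intro s
    obtain ⟨a, ha, b, hb, hab⟩ := Submodule.mem_sup.1 (h1 s)
    have h6 : (Submodule.Quotient.mk (algebraMap R A x) : A ⧸ P') = b • (Submodule.Quotient.mk (1 : A) : A ⧸ P') := by
      rw [← hab, ← Submodule.Quotient.mk_smul, smul_eq_mul, mul_one, Submodule.Quotient.eq]
      rw [add_sub_cancel_right]
      exact ha
    rw [h6]
    exact Submodule.smul_mem_smul hb Submodule.mem_top
  rw [Ideal.iInf_pow_smul_eq_bot_of_isLocalRing _ (IsLocalRing.maximalIdeal.isMaximal A).ne_top, Submodule.mem_bot,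
    Submodule.Quotient.mk_eq_zero] at h5
  have h7 : P'.comap (algebraMap R A) = P := by
    refine IsLocalization.under_map_of_isPrime_disjoint I.primeCompl A hP ?_
    rw [Set.disjoint_left]
    intro y hy hy'
    exact hy (hPI hy')
  rw [← h7]
  exact h5

variable {k K : Type*} [Field k] [Field K] [Algebra (PowerSeries k) K] {m : ℕ}

/-- a retraction `K → K` onto the fraction field of `k⟦X⟧` -/
private theorem kru_retr (hinj : Function.Injective (algebraMap (PowerSeries k) K)) :
    ∃ r : K →+ K, (∀ (c : PowerSeries k) (a : K), r (algebraMap _ K c * a) = algebraMap _ K c * r a) ∧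
      (∀ c : PowerSeries k, r (algebraMap _ K c) = algebraMap _ K c) ∧
      ∀ a, ∃ (d c : PowerSeries k), d ≠ 0 ∧ algebraMap _ K d * r a = algebraMap _ K c := by
  let κ := FractionRing (PowerSeries k)
  let φ : κ →+* K := IsFractionRing.lift hinj
  have hφ : ∀ c : PowerSeries k, φ (algebraMap _ κ c) = algebraMap _ K c := fun c => IsFractionRing.lift_algebraMap hinj c
  let _ : Algebra κ K := φ.toAlgebra
  obtain ⟨r, hr⟩ := LinearMap.exists_leftInverse_of_injective (Algebra.linearMap κ K)
    (LinearMap.ker_eq_bot.2 (FaithfulSMul.algebraMap_injective κ K))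
  have hr' : ∀ a : κ, r (φ a) = a := fun a => LinearMap.congr_fun hr a
  refine ⟨φ.toAddMonoidHom.comp r.toAddMonoidHom, fun c a => ?_, fun c => ?_, fun a => ?_⟩
  · have h1 : algebraMap (PowerSeries k) K c * a = (algebraMap (PowerSeries k) κ c : κ) • a := by
      rw [Algebra.smul_def]
      show _ = φ (algebraMap _ κ c) * a
      rw [hφ]
    show φ (r (algebraMap _ K c * a)) = algebraMap _ K c * φ (r a)
    rw [h1, map_smul, smul_eq_mul, map_mul, hφ]
  · show φ (r (algebraMap _ K c)) = _
    rw [← hφ, hr']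
  · obtain ⟨c, d, hd, hcd⟩ := IsFractionRing.div_surjective (A := PowerSeries k) (r a)
    refine ⟨d, c, nonZeroDivisors.ne_zero hd, ?_⟩
    show algebraMap _ K d * φ (r a) = _
    rw [← hcd, ← hφ d, ← map_mul, mul_div_cancel₀, hφ]
    exact IsFractionRing.to_map_ne_zero_of_mem_nonZeroDivisors hd

/-- apply `r` to the coefficients -/
private def kru_rho (r : K →+ K) (a : MvPowerSeries (Fin m) K) : MvPowerSeries (Fin m) K := fun e => r (coeff e a)

omit [Algebra (PowerSeries k) K] in
private theorem kru_coeff (r : K →+ K) (a : MvPowerSeries (Fin m) K) (e : Fin m →₀ ℕ) :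
    coeff e (kru_rho r a) = r (coeff e a) := rfl

private theorem kru_rho_mul {r : K →+ K}
    (hr : ∀ (c : PowerSeries k) (a : K), r (algebraMap _ K c * a) = algebraMap _ K c * r a)
    {a : MvPowerSeries (Fin m) K} (ha : ∀ e, ∃ c : PowerSeries k, coeff e a = algebraMap _ K c)
    (b : MvPowerSeries (Fin m) K) : kru_rho r (a * b) = a * kru_rho r b := by
  classical
  ext e
  rw [kru_coeff, coeff_mul, coeff_mul, map_sum]
  refine Finset.sum_congr rfl fun p _ => ?_
  obtain ⟨c, hc⟩ := ha p.1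
  rw [hc, hr, kru_coeff]

/-- the properties of `ι` -/
structure KIota (ι : MvPowerSeries (Fin (m + 1)) k →+* MvPowerSeries (Fin m) K) : Prop where
  rng : ∀ x e, ∃ c : PowerSeries k, coeff e (ι x) = algebraMap _ K c
  con : ∀ c : PowerSeries k, ∃ y, ι y = C (algebraMap _ K c)
  var : ∀ i : Fin m, ι (X i.castSucc) = X i
  ord : ∀ (s : ℕ) (x), (∀ e : Fin m →₀ ℕ, e.degree < s → coeff e (ι x) = 0) →
    x ∈ (Ideal.span {x | ∃ i : Fin (m + 1), i.val < m ∧ x = (X i : MvPowerSeries (Fin (m + 1)) k)}) ^ s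

private theorem kru_mono {ι : MvPowerSeries (Fin (m + 1)) k →+* MvPowerSeries (Fin m) K} (hι : KIota ι)
    (c : PowerSeries k) (e : Fin m →₀ ℕ) : ∃ y, ι y = monomial e (algebraMap _ K c) := by
  obtain ⟨y, hy⟩ := hι.con c
  refine ⟨y * e.prod fun i n => X i.castSucc ^ n, ?_⟩
  rw [map_mul, hy, Finsupp.prod, map_prod]
  simp only [map_pow, hι.var]
  have h1 : (∏ i ∈ e.support, (X i : MvPowerSeries (Fin m) K) ^ e i) = monomial e 1 := by
    rw [MvPowerSeries.monomial_one_eq]
    rfl
  rw [h1, ← monomial_zero_eq_C_apply, monomial_mul_monomial, zero_add, mul_one]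

/-- truncation and common denominators -/
private theorem kru_trunc {ι : MvPowerSeries (Fin (m + 1)) k →+* MvPowerSeries (Fin m) K} (hι : KIota ι)
    {r : K →+ K} (hr : ∀ a, ∃ (d c : PowerSeries k), d ≠ 0 ∧ algebraMap _ K d * r a = algebraMap _ K c)
    (b : MvPowerSeries (Fin m) K) (S : Finset (Fin m →₀ ℕ)) :
    ∃ (d : PowerSeries k) (c : MvPowerSeries (Fin (m + 1)) k), d ≠ 0 ∧
      ∀ e, coeff e (ι c) = if e ∈ S then algebraMap _ K d * r (coeff e b) else 0 := by
  classical
  induction S using Finset.induction_on with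
  | empty => exact ⟨1, 0, one_ne_zero, fun e => by simp⟩
  | insert e0 S h0 ih =>
    obtain ⟨d, c, hd, h⟩ := ih
    obtain ⟨d0, c0, hd0, h1⟩ := hr (coeff e0 b)
    obtain ⟨y0, hy0⟩ := hι.con d0
    obtain ⟨y, hy⟩ := hι.con d
    obtain ⟨z, hz⟩ := kru_mono hι c0 e0
    refine ⟨d * d0, y0 * c + y * z, mul_ne_zero hd hd0, fun e => ?_⟩
    rw [map_add, map_mul, map_mul, hy0, hy, hz, map_add, coeff_C_mul, coeff_C_mul, h, coeff_monomial, map_mul]
    by_cases h2 : e = e0
    · subst h2
      rw [if_neg h0, if_pos rfl, if_pos (Finset.mem_insert_self _ _), mul_zero, zero_add, ← h1]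
      ring
    · rw [if_neg h2, mul_zero, add_zero]
      by_cases h3 : e ∈ S
      · rw [if_pos h3, if_pos (Finset.mem_insert_of_mem h3)]
        ring
      · rw [if_neg h3, if_neg fun h4 => (Finset.mem_insert.1 h4).elim h2 h3, mul_zero]

/-- descent of membership -/
theorem kru {ι : MvPowerSeries (Fin (m + 1)) k →+* MvPowerSeries (Fin m) K} (hι : KIota ι)
    (hinj : Function.Injective (algebraMap (PowerSeries k) K))
    {P : Ideal (MvPowerSeries (Fin (m + 1)) k)} [hPp : P.IsPrime]
    (hP : P ≤ Ideal.span {x | ∃ i : Fin (m + 1), i.val < m ∧ x = (X i : MvPowerSeries (Fin (m + 1)) k)})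
    {x : MvPowerSeries (Fin (m + 1)) k}
    (h : ∀ s : ℕ, ∃ f : MvPowerSeries (Fin m) K, (∀ e : Fin m →₀ ℕ, e.degree < s → coeff e f = 0) ∧ ι x - f ∈ P.map ι) :
    x ∈ P := by
  classical
  obtain ⟨r, hr1, hr2, hr3⟩ := kru_retr (k := k) hinj
  set I := Ideal.span {x | ∃ i : Fin (m + 1), i.val < m ∧ x = (X i : MvPowerSeries (Fin (m + 1)) k)} with hI
  have hIk : I = RingHom.ker ((constantCoeff (σ := Fin m) (R := K)).comp ι) := by
    apply le_antisymm
    · rw [hI, Ideal.span_le]
      rintro _ ⟨i, hi, rfl⟩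
      have h1 : i = (⟨i.val, hi⟩ : Fin m).castSucc := rfl
      rw [h1]
      show constantCoeff (ι (X _)) = 0
      rw [hι.var, constantCoeff_X]
    · intro y hy
      have h1 := hι.ord 1 y (fun e he => by
        have h2 : e = 0 := (Finsupp.degree_eq_zero_iff e).1 (Nat.lt_one_iff.1 he)
        subst h2
        exact hy)
      rwa [pow_one] at h1
  have hIp : I.IsPrime := by
    rw [hIk]
    exact RingHom.ker_isPrime _
  refine krull_mem (I := I) hP fun s => ?_
  -- the condition on an element of the extended ideal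
  have key : ∀ y ∈ P.map ι, ∀ b : MvPowerSeries (Fin m) K, ∃ (d : PowerSeries k), d ≠ 0 ∧ ∃ p ∈ P,
      ∀ e : Fin m →₀ ℕ, e.degree < s → algebraMap _ K d * r (coeff e (b * y)) = coeff e (ι p) := by
    intro y hy
    induction hy using Submodule.span_induction with
    | mem y hy =>
      obtain ⟨p, hp, rfl⟩ := hy
      intro b
      obtain ⟨d, c, hd, hc⟩ := kru_trunc hι hr3 b (Finsupp.finite_of_degree_lt (σ := Fin m) s).toFinset
      refine ⟨d, hd, c * p, P.mul_mem_left _ hp, fun e he => ?_⟩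
      have h5 : ι (c * p) = ι p * ι c := by rw [map_mul, mul_comm]
      rw [mul_comm b, ← kru_coeff r, kru_rho_mul hr1 (hι.rng p), h5, coeff_mul, coeff_mul, Finset.mul_sum]
      refine Finset.sum_congr rfl fun q hq => ?_
      have h2 : q.2.degree < s := by
        have h3 := Finset.HasAntidiagonal.mem_antidiagonal.1 hq
        have h4 : e.degree = q.1.degree + q.2.degree := by rw [← h3, map_add]
        omega
      rw [hc, if_pos (by simpa using h2), kru_coeff]
      ring
    | zero => exact fun b => ⟨1, one_ne_zero, 0, P.zero_mem, fun e _ => by simp⟩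
    | add y1 y2 _ _ h1 h2 =>
      intro b
      obtain ⟨d1, hd1, p1, hp1, h1⟩ := h1 b
      obtain ⟨d2, hd2, p2, hp2, h2⟩ := h2 b
      obtain ⟨z1, hz1⟩ := hι.con d1
      obtain ⟨z2, hz2⟩ := hι.con d2
      refine ⟨d1 * d2, mul_ne_zero hd1 hd2, z2 * p1 + z1 * p2,
        P.add_mem (P.mul_mem_left _ hp1) (P.mul_mem_left _ hp2), fun e he => ?_⟩
      have h5 : ι (z2 * p1 + z1 * p2) = C (algebraMap _ K d2) * ι p1 + C (algebraMap _ K d1) * ι p2 := by
        rw [map_add, map_mul, map_mul, hz1, hz2]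
      rw [h5, map_add, coeff_C_mul, coeff_C_mul, ← h1 e he, ← h2 e he, mul_add, map_add, map_add,
        map_mul (algebraMap (PowerSeries k) K)]
      ring
    | smul a y _ h1 =>
      intro b
      obtain ⟨d, hd, p, hp, h2⟩ := h1 (b * a)
      refine ⟨d, hd, p, hp, fun e he => ?_⟩
      rw [smul_eq_mul, ← mul_assoc]
      exact h2 e he
  obtain ⟨f, hf, hx⟩ := h s
  obtain ⟨d, hd, p, hp, h1⟩ := key _ hx 1
  obtain ⟨w, hw⟩ := hι.con d
  refine ⟨w, ?_, ?_⟩
  · rw [hIk]
    intro h2
    have h3 : constantCoeff (ι w) = 0 := h2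
    rw [hw, constantCoeff_C] at h3
    exact hd (hinj (by rw [h3, map_zero]))
  · have h2 : w * x - p ∈ I ^ s := by
      refine hι.ord s _ fun e he => ?_
      have h3 := h1 e he
      rw [one_mul, map_sub, hf e he, sub_zero] at h3
      obtain ⟨c, hc⟩ := hι.rng x e
      rw [map_sub, map_mul, hw, map_sub, coeff_C_mul, ← h3, hc, hr2, sub_self]
    have h4 : w * x = p + (w * x - p) := by ring
    rw [h4]
    exact Submodule.add_mem_sup hp h2

end Pool.Agent.H91.CA
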